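import Pool.Agent.MP_8b47e7_co.Mg.H27_Full

set_option autoImplicit false

namespace Pool.Agent.Results.MP_8b47e7_co.AboveNLogN

open Pool.Agent.MP_8b47e7_co.H27

/-- For all large `n`, the maximum number of unit distances among `n` points of 3-space with no four
on a plane is at least `c n log n sqrt (log log n)`; in particular it is of larger order than
`n log n` along the whole sequence of natural numbers. -/
theorem result : ∃ c : ℝ, 0 < c ∧ ∃ n0 : ℕ, ∀ n : ℕ, n0 ≤ n →
    c * ((n : ℝ) * Real.log n * Real.sqrt (Real.log (Real.log n))) ≤ (u3 n : ℝ) :=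
  main

end Pool.Agent.Results.MP_8b47e7_co.AboveNLogN
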